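import Pool.Agent.Run7.h298.RO.DB

/-!
Piece DA of project RO (MP_e6c71b_co), adapted from helper298's DB.
-/

set_option autoImplicit false

namespace Run7.h77.RO.DA

open Run7.h77.RO Run7.h298.RO

open Classical in
lemma cnt_zero' {p B w v : ℕ} {H : SimpleGraph (Fin w)} {k k' : Kd p} {x : ℕ}
    (h : ∀ z, z < sz B w v k' → ¬ A2 B w v H k x k' z) : cnt B w v H k x k' = 0 := by
  unfold cnt
  rw [Finset.card_eq_zero, Finset.filter_eq_empty_iff]
  exact fun z hz => h z (Finset.mem_range.mp hz)

open Classical in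
lemma cnt_le {p B w v : ℕ} {H : SimpleGraph (Fin w)} {k k' : Kd p} {x : ℕ} (n : ℕ)
    (hn : n < sz B w v k')
    (h : ∀ z, A2 B w v H k x k' z ↔ z ≤ n) : cnt B w v H k x k' = n + 1 := by
  unfold cnt
  have : ((Finset.range (sz B w v k')).filter (fun y => A2 B w v H k x k' y)) =
      Finset.range (n + 1) := by
    ext z
    simp only [Finset.mem_filter, Finset.mem_range, h z]
    omega
  rw [this, Finset.card_range]

theorem t_DA (hHN : S_HN) : S_DA := by
  intro p B w v m D H hP i x hx
  have hw := hP.hw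
  have h1pv : (2 * p + 3) * w ≤ w * v := by
    have h1 : 2 * p + 3 ≤ v := by have := hP.hv; omega
    calc (2 * p + 3) * w ≤ v * w := Nat.mul_le_mul_right _ h1
      _ = w * v := by ring
  have hp : 1 ≤ p := by have := i.2; omega
  have u0 : cnt B w v H (.a i) x .u0 = 0 := cnt_zero (by intro z; simp [A2, E])
  have u2 : cnt B w v H (.a i) x .u2 = 0 := cnt_zero (by intro z; simp [A2, E])
  have l1 : cnt B w v H (.a i) x .l1 = 0 := cnt_zero (by intro z; simp [A2, E])
  have l2 : cnt B w v H (.a i) x .l2 = 0 := cnt_zero (by intro z; simp [A2, E])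
  have bi : cnt B w v H (.a i) x (.b i) = x + 1 :=
    cnt_le x hx (by intro z; simp [A2, E])
  have ai : cnt B w v H (.a i) x (.a i) = 0 := cnt_zero (by intro z; simp [A2, E])
  by_cases hxN : x < 2 * B * w
  · have hxB : x / w < 2 * B := (Nat.div_lt_iff_lt_mul hw).2 hxN
    have hc : x % w < w := Nat.mod_lt _ hw
    have hs1 : (x / w + 1) * w ≤ 2 * B * w := Nat.mul_le_mul_right _ hxB
    have hs2 : (x / w + 1) * w ≤ 2 * B * w + w := by omega
    have hs3 : (x / w + 1 + 1) * w ≤ 2 * B * w + w := by
      calc (x / w + 1 + 1) * w ≤ (2 * B + 1) * w := Nat.mul_le_mul_right _ (by omega)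
        _ = 2 * B * w + w := by ring
    have rj : ∀ j : Fin 3, cnt B w v H (.a i) x (.r j) = D := by
      intro j
      refine cnt_hn hHN hP (x % w) (x / w) hc hs1 ?_
      intro z
      simp only [A2, E, false_or]
      rw [Hn_symm H (z % w) (x % w), eq_comm (a := z / w)]
    have aj : ∀ j : Fin p, j ≠ i → cnt B w v H (.a i) x (.a j) = D := by
      intro j hj
      refine cnt_hn hHN hP (x % w) (x / w) hc hs2 ?_
      intro z
      simp only [A2, E]
      rw [Hn_symm H (z % w) (x % w)]
      constructor
      · rintro (⟨_, h1, _, h2⟩ | ⟨_, h1, _, h2⟩)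
        · exact ⟨h1, h2⟩
        · exact ⟨h1.symm, h2⟩
      · rintro ⟨h1, h2⟩
        exact Or.inl ⟨hj.symm, h1, hxB, h2⟩
    have bj : ∀ j : Fin p, j ≠ i → cnt B w v H (.a i) x (.b j) = D := by
      intro j hj
      refine cnt_hn hHN hP (x % w) (x / w + 1) hc hs3 ?_
      intro z
      simp only [A2, E, or_false]
      constructor
      · rintro (⟨h1, _⟩ | ⟨_, h1, h2⟩)
        · exact absurd h1.symm hj
        · exact ⟨h1, h2⟩
      · rintro ⟨h1, h2⟩
        exact Or.inr ⟨hj.symm, h1, h2⟩
    have u1 : cnt B w v H (.a i) x .u1 = 0 := cnt_zero (by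
      intro z
      simp only [A2, E, or_false]
      intro h
      omega)
    have sb : ∑ j : Fin p, cnt B w v H (.a i) x (.b j) = (x + 1) + (p - 1) * D := by
      rw [← Finset.add_sum_erase _ _ (Finset.mem_univ i), bi,
        Finset.sum_congr rfl (fun j hj => bj j (Finset.ne_of_mem_erase hj)), Finset.sum_const,
        Finset.card_erase_of_mem (Finset.mem_univ i), Finset.card_univ, Fintype.card_fin,
        smul_eq_mul]
    have sa : ∑ j : Fin p, cnt B w v H (.a i) x (.a j) = (p - 1) * D := by
      rw [← Finset.add_sum_erase _ _ (Finset.mem_univ i), ai, zero_add,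
        Finset.sum_congr rfl (fun j hj => aj j (Finset.ne_of_mem_erase hj)), Finset.sum_const,
        Finset.card_erase_of_mem (Finset.mem_univ i), Finset.card_univ, Fintype.card_fin,
        smul_eq_mul]
    rw [if_pos hxN, dg, rj 0, rj 1, rj 2, sa, sb, u0, u1, u2, l1, l2]
    obtain ⟨p', rfl⟩ : ∃ p', p = p' + 1 := ⟨p - 1, by omega⟩
    simp only [Nat.add_sub_cancel]
    ring
  · have hxB : x / w = 2 * B := by
      apply le_antisymm
      · have : x / w < 2 * B + 1 := by
          rw [Nat.div_lt_iff_lt_mul hw]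
          calc x < 2 * B * w + w := hx
            _ = (2 * B + 1) * w := by ring
        omega
      · exact (Nat.le_div_iff_mul_le hw).2 (not_lt.1 hxN)
    have hlt1 : ∀ z, z < 2 * B * w → z / w < 2 * B := fun z hz => (Nat.div_lt_iff_lt_mul hw).2 hz
    have hlt2 : ∀ z, z < 2 * B * w + w → z / w < 2 * B + 1 := by
      intro z hz
      rw [Nat.div_lt_iff_lt_mul hw]
      calc z < 2 * B * w + w := hz
        _ = (2 * B + 1) * w := by ring
    have rj : ∀ j : Fin 3, cnt B w v H (.a i) x (.r j) = 0 := by
      intro j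
      refine cnt_zero' ?_
      intro z hz
      have := hlt1 z hz
      simp only [A2, E, false_or]
      rintro ⟨h, _⟩
      omega
    have aj : ∀ j : Fin p, cnt B w v H (.a i) x (.a j) = 0 := by
      intro j
      refine cnt_zero ?_
      intro z
      simp only [A2, E]
      rintro (⟨_, h1, h2, _⟩ | ⟨_, h1, h2, _⟩) <;> omega
    have bj : ∀ j : Fin p, j ≠ i → cnt B w v H (.a i) x (.b j) = 0 := by
      intro j hj
      refine cnt_zero' ?_
      intro z hz
      have := hlt2 z hz
      simp only [A2, E, or_false]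
      rintro (⟨h1, _⟩ | ⟨_, h1, _⟩)
      · exact hj h1.symm
      · omega
    have u1 : cnt B w v H (.a i) x .u1 = (2 * p + 3) * w := by
      have h := cnt_ge (p := p) (B := B) (w := w) (v := v) (H := H) (k := .a i) (k' := .u1)
        (x := x) (w * v - (2 * p + 3) * w) (by
          intro z
          simp only [A2, E, or_false]
          constructor
          · rintro ⟨_, h⟩; omega
          · intro h; exact ⟨not_lt.1 hxN, by omega⟩)
      rw [h]
      simp only [sz]
      omega
    have sb : ∑ j : Fin p, cnt B w v H (.a i) x (.b j) = x + 1 := by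
      rw [← Finset.add_sum_erase _ _ (Finset.mem_univ i), bi,
        Finset.sum_congr rfl (fun j hj => bj j (Finset.ne_of_mem_erase hj)), Finset.sum_const_zero,
        add_zero]
    have sa : ∑ j : Fin p, cnt B w v H (.a i) x (.a j) = 0 := by
      rw [Finset.sum_congr rfl (fun j _ => aj j), Finset.sum_const_zero]
    rw [if_neg hxN, dg, rj 0, rj 1, rj 2, sa, sb, u0, u1, u2, l1, l2]
    ring

end Run7.h77.RO.DA
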