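import Pool.Agent.Run7.h77.RO.Defs
import Pool.Agent.Run7.h648.RO.DU

set_option autoImplicit false

/-! Piece DU2 of the project RO (MP_e6c71b_co), adapted from helper648's DU1. -/

namespace Run7.h77.RO.DU2

open Run7.h77.RO Run7.h648.RO Finset

theorem t_DU2 : S_DU2 := by
  intro p B w v m D H hP j hj
  have hw := hP.hw
  have hm := hP.hm
  have hv := hP.hv
  have hT : (2 * p + 3) * w ≤ w * v := by
    rw [mul_comm w v]
    exact Nat.mul_le_mul_right _ (by omega)
  have hQpos : 0 < 2 * w * v := by
    have : 0 < v := by omega
    positivity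
  have hwQ : 4 * w ≤ w * v := by
    rw [mul_comm w v]
    exact Nat.mul_le_mul_right _ (by omega)
  have hZ : B * w = m * (2 * w * v) := by
    rw [hP.hB]
    ring
  have hN : 2 * B * w = 2 * (B * w) := by ring
  have h2 : 2 * w * v = 2 * (w * v) := by ring
  have r2 : cnt B w v H (.u2 : Kd p) j (.r 2) =
      m * (2 * w * v - w) + B * w := by
    rw [cnt_eq (fun z => (z < B * w → w ≤ (z + j) % (2 * w * v))) (2 * B * w) rfl
      (fun z _ => by simp [A2, E])]
    have hsplit : (range (2 * B * w)).filter (fun z => (z < B * w → w ≤ (z + j) % (2 * w * v))) =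
        (range (m * (2 * w * v))).filter (fun z => w ≤ (z + j) % (2 * w * v)) ∪
          Ico (B * w) (2 * B * w) := by
      rw [← hZ, hN]
      ext z
      simp only [mem_filter, mem_range, mem_union, mem_Ico]
      by_cases hz : z < B * w
      · constructor
        · rintro ⟨h1, h3⟩
          exact Or.inl ⟨hz, h3 hz⟩
        · rintro (h1 | h1)
          · exact ⟨by omega, fun _ => h1.2⟩
          · exfalso
            omega
      · constructor
        · rintro ⟨h1, -⟩
          exact Or.inr ⟨by omega, h1⟩
        · rintro (h1 | h1)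
          · exfalso
            omega
          · exact ⟨h1.2, fun h => absurd h hz⟩
    rw [hsplit, card_union_of_disjoint, card_per _ hQpos, Nat.card_Ico]
    · omega
    · rw [disjoint_left]
      intro z h1 h3
      simp only [mem_filter, mem_range, mem_Ico] at h1 h3
      rw [← hZ] at h1
      omega
  have r0 : cnt B w v H (.u2 : Kd p) j (.r 0) = 0 := cnt_zero fun y => by simp [A2, E]
  have r1 : cnt B w v H (.u2 : Kd p) j (.r 1) = 0 := cnt_zero fun y => by simp [A2, E]
  have rb : ∀ i : Fin p, cnt B w v H (.u2 : Kd p) j (.b i) =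
      if 2 * w * v ≤ j + (2 * p + 3) * w then w else 0 := by
    intro i
    split_ifs with hc
    · have hE : ∀ z, z < 2 * B * w + w → (A2 B w v H (.u2 : Kd p) j (.b i) z ↔ z < w) := by
        intro z _
        simp only [A2, E, false_or, hc, and_true]
      rw [cnt_eq (fun z => z < w) (2 * B * w + w) rfl hE]
      have : (range (2 * B * w + w)).filter (fun z => z < w) = range w := by
        ext z
        simp only [mem_filter, mem_range]
        omega
      rw [this, card_range]
    · exact cnt_zero fun y => by simp [A2, E, hc]
  have ra : ∀ i : Fin p, cnt B w v H (.u2 : Kd p) j (.a i) = 0 := fun i =>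
    cnt_zero fun y => by simp [A2, E]
  have u0 : cnt B w v H (.u2 : Kd p) j .u0 = 0 := cnt_zero fun y => by simp [A2, E]
  have u2 : cnt B w v H (.u2 : Kd p) j .u2 = 0 := cnt_zero fun y => by simp [A2, E]
  have u1 : cnt B w v H (.u2 : Kd p) j .u1 = w * v - (2 * w - j) := by
    rw [cnt_eq (fun z => 2 * w - j ≤ z) (w * v) rfl
      (fun z _ => by
        simp only [A2, E, false_or]
        omega), card_ge]
  have l2 : cnt B w v H (.u2 : Kd p) j .l2 = j + 1 - 2 * w := by
    rw [cnt_eq (fun z => 2 * w * v - 1 - j ≤ z) (2 * w * v - 2 * w) rfl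
      (fun z _ => by
        simp only [A2, E, false_or]
        generalize 2 * w * v = Q at *
        omega), card_ge]
    generalize 2 * w * v = Q at *
    omega
  have l1 : cnt B w v H (.u2 : Kd p) j .l1 = 0 := cnt_zero fun y => by simp [A2, E]
  unfold dg
  simp only [r0, r1, r2, ra, rb, u0, u1, u2, l1, l2, sum_const_zero, sum_const, card_univ,
    Fintype.card_fin, smul_eq_mul]
  have hper : m * (2 * w * v - w) + w * m = B * w := by
    rw [mul_comm w m, ← mul_add, Nat.sub_add_cancel (by omega), hZ]
  split_ifs with hc
  · rw [hN]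
    generalize m * (2 * w * v - w) = S at *
    generalize w * m = T4 at *
    generalize 2 * w * v = Q at *
    generalize w * v = Q1 at *
    generalize B * w = Z at *
    generalize p * w = R at *
    omega
  · rw [hN, mul_zero]
    generalize m * (2 * w * v - w) = S at *
    generalize w * m = T4 at *
    generalize 2 * w * v = Q at *
    generalize w * v = Q1 at *
    generalize B * w = Z at *
    omega

end Run7.h77.RO.DU2
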