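import Mathlib

/-!
# Triangle-free graphs with few repeated degrees (MP_e6c71b_co), odd `k = 2p + 3`

Notation used in the proofs: `L = 2 B` blocks of `w` positions, `N = 2 B w`, `Z = B w` (the middle).
Three circular classes `r 0, r 1, r 2` with positions `z < N`, `p` half graphs `a i`, `b i` with positions
`x < N + w`, and a few unblocked vertices `u0` (`w` of them), `u1` (`U1`), `u2` (`U2`), `l1`
(`U1 - 2w`), `l2` (`U2 - 2w`).  Parameters: `U1 = w v`, `U2 = 2 w v`, `B = 2 v m`, `t = (2p+3) w`.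
-/

namespace Run7.h77.RO

/-- kinds of vertices -/
inductive Kd (p : ℕ) : Type
  | r (i : Fin 3)
  | a (i : Fin p)
  | b (i : Fin p)
  | u0
  | u1
  | u2
  | l1
  | l2

/-- label adjacency on numbers -/
def Hn {w : ℕ} (H : SimpleGraph (Fin w)) (x y : ℕ) : Prop :=
  ∃ (hx : x < w) (hy : y < w), H.Adj ⟨x, hx⟩ ⟨y, hy⟩

/-- thresholds between the circular classes: `N + w - 1` for `0 → 1`, `N - 1` for `1 → 2`, `2 → 0` -/
def th (B w : ℕ) (i : Fin 3) : ℕ := if i = 0 then 2 * B * w + w - 1 else 2 * B * w - 1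

/-- half of the adjacency relation (kind, position) to (kind, position) -/
def E {p : ℕ} (B w v : ℕ) (H : SimpleGraph (Fin w)) : Kd p → ℕ → Kd p → ℕ → Prop
  | .r i, x, .r j, y =>
      (j = i + 1 ∧ x / w < y / w ∧ B * w ≤ y ∧ (B * w ≤ x ∨ th B w i ≤ x + y)) ∨
      (i ≠ j ∧ x / w = y / w ∧ Hn H (x % w) (y % w))
  | .r _, x, .a _, y => x / w = y / w ∧ Hn H (x % w) (y % w)
  | .r _, x, .b _, y => x / w + 1 = y / w ∧ Hn H (x % w) (y % w)
  | .a i, x, .a j, y => i ≠ j ∧ x / w = y / w ∧ x / w < 2 * B ∧ Hn H (x % w) (y % w)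
  | .b i, x, .b j, y => i ≠ j ∧ x / w = y / w ∧ 1 ≤ x / w ∧ Hn H (x % w) (y % w)
  | .a i, x, .b j, y => (i = j ∧ y ≤ x) ∨ (i ≠ j ∧ x / w + 1 = y / w ∧ Hn H (x % w) (y % w))
  | .u0, j, .r i, z => i = 0 ∧ j ≤ z
  | .u1, j, .r i, z => i = 1 ∧ (z < B * w → 2 * w ≤ (z + j) % (w * v)) ∧
      (B * w ≤ z → B * w + w ≤ j + z + 1)
  | .u2, l, .r i, z => i = 2 ∧ (z < B * w → w ≤ (z + l) % (2 * w * v))
  | .u0, _, .u1, j => w * v ≤ j + (2 * p + 3) * w
  | .u1, j, .u2, l => 2 * w ≤ j + l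
  | .l1, r, .u1, j => w * v ≤ j + r + 1
  | .l2, r, .u2, l => 2 * w * v ≤ l + r + 1
  | .a _, x, .u1, j => 2 * B * w ≤ x ∧ w * v ≤ j + (2 * p + 3) * w
  | .b _, y, .u2, l => y < w ∧ 2 * w * v ≤ l + (2 * p + 3) * w
  | _, _, _, _ => False

/-- number of vertices of a kind (per class) -/
def sz {p : ℕ} (B w v : ℕ) : Kd p → ℕ
  | .r _ => 2 * B * w
  | .a _ => 2 * B * w + w
  | .b _ => 2 * B * w + w
  | .u0 => w
  | .u1 => w * v
  | .u2 => 2 * w * v
  | .l1 => w * v - 2 * w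
  | .l2 => 2 * w * v - 2 * w

/-- vertices -/
abbrev V (p B w v : ℕ) : Type :=
  (Fin 3 × Fin (2 * B * w)) ⊕ (Fin p × Fin (2 * B * w + w)) ⊕ (Fin p × Fin (2 * B * w + w)) ⊕
    Fin w ⊕ Fin (w * v) ⊕ Fin (2 * w * v) ⊕ Fin (w * v - 2 * w) ⊕ Fin (2 * w * v - 2 * w)

/-- kind of a vertex -/
def kd {p B w v : ℕ} : V p B w v → Kd p
  | .inl x => .r x.1
  | .inr (.inl x) => .a x.1
  | .inr (.inr (.inl x)) => .b x.1
  | .inr (.inr (.inr (.inl _))) => .u0
  | .inr (.inr (.inr (.inr (.inl _)))) => .u1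
  | .inr (.inr (.inr (.inr (.inr (.inl _))))) => .u2
  | .inr (.inr (.inr (.inr (.inr (.inr (.inl _)))))) => .l1
  | .inr (.inr (.inr (.inr (.inr (.inr (.inr _)))))) => .l2

/-- position of a vertex -/
def ps {p B w v : ℕ} : V p B w v → ℕ
  | .inl x => x.2
  | .inr (.inl x) => x.2
  | .inr (.inr (.inl x)) => x.2
  | .inr (.inr (.inr (.inl x))) => x
  | .inr (.inr (.inr (.inr (.inl x)))) => x
  | .inr (.inr (.inr (.inr (.inr (.inl x))))) => x
  | .inr (.inr (.inr (.inr (.inr (.inr (.inl x)))))) => x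
  | .inr (.inr (.inr (.inr (.inr (.inr (.inr x)))))) => x

/-- full adjacency on (kind, position) -/
def A2 {p : ℕ} (B w v : ℕ) (H : SimpleGraph (Fin w)) (k : Kd p) (x : ℕ) (k' : Kd p) (y : ℕ) : Prop :=
  E B w v H k x k' y ∨ E B w v H k' y k x

theorem Hn_irrefl {w : ℕ} (H : SimpleGraph (Fin w)) (x : ℕ) : ¬ Hn H x x :=
  fun ⟨_, _, h⟩ => H.loopless.irrefl _ h

theorem E_irrefl {p : ℕ} (B w v : ℕ) (H : SimpleGraph (Fin w)) (k : Kd p) (x : ℕ) :
    ¬ E B w v H k x k x := by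
  cases k <;> simp [E]

/-- the graph -/
def G (p B w v : ℕ) (H : SimpleGraph (Fin w)) : SimpleGraph (V p B w v) where
  Adj x y := A2 B w v H (kd x) (ps x) (kd y) (ps y)
  symm := ⟨fun _ _ h => Or.symm h⟩
  loopless := ⟨fun _ h => h.elim (E_irrefl _ _ _ _ _ _) (E_irrefl _ _ _ _ _ _)⟩

open Classical in
/-- number of neighbours of kind `k'` -/
noncomputable def cnt {p : ℕ} (B w v : ℕ) (H : SimpleGraph (Fin w)) (k : Kd p) (x : ℕ) (k' : Kd p) : ℕ :=
  ((Finset.range (sz B w v k')).filter (fun y => A2 B w v H k x k' y)).card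

/-- the degree as a sum of counts -/
noncomputable def dg {p : ℕ} (B w v : ℕ) (H : SimpleGraph (Fin w)) (k : Kd p) (x : ℕ) : ℕ :=
  (cnt B w v H k x (.r 0) + cnt B w v H k x (.r 1) + cnt B w v H k x (.r 2)) +
  (∑ i : Fin p, cnt B w v H k x (.a i)) + (∑ i : Fin p, cnt B w v H k x (.b i)) +
  cnt B w v H k x .u0 + cnt B w v H k x .u1 + cnt B w v H k x .u2 + cnt B w v H k x .l1 +
  cnt B w v H k x .l2

/-- SUM. the degree is `dg`. (helper77) -/
def S_SUM : Prop :=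
  ∀ (p B w v : ℕ) (H : SimpleGraph (Fin w)) (x : V p B w v),
    ((G p B w v H).neighborSet x).ncard = dg B w v H (kd x) (ps x)

/-- admissible parameters -/
structure Par (p B w v m D : ℕ) (H : SimpleGraph (Fin w)) : Prop where
  hw : 0 < w
  hm : 1 ≤ m
  hB : B = 2 * v * m
  hv : 4 * m + 2 * p + 4 ≤ v
  hD : 2 * D ≤ w
  hreg : ∀ c, (H.neighborSet c).ncard = D

open Classical in
/-- HN. number of sparse neighbours in block `q` (`y = q w + c'`, `c'` a neighbour of `c`) -/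
def S_HN : Prop :=
  ∀ (w D : ℕ) (H : SimpleGraph (Fin w)), (∀ c, (H.neighborSet c).ncard = D) →
    ∀ (c q M : ℕ), c < w → (q + 1) * w ≤ M →
      ((Finset.range M).filter (fun y => q = y / w ∧ @Hn w H c (y % w))).card = D

/-- DR0 (hypothesis `S_HN`). degrees in class `r 0`.  Counts (`N = 2Bw`, `Z = Bw`, `N = 2Z`), `z < N`:
kind `r 0`: 0.  kind `r 1`: `D` sparse (block `z/w`) plus dense forward ones `y` with `z/w < y/w`, `Z ≤ y`,
(`Z ≤ z` or `N + w - 1 ≤ z + y`): for `z < Z` it is the interval `[N + w - 1 - z, N)`, `z + 1 - w` (truncated)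
of them; for `Z ≤ z` the interval `[(z/w + 1) w, N)`.  kind `r 2`: `D` sparse plus dense backward ones
(`th 2 = N - 1`): none for `z < Z`; for `Z ≤ z`: `[N - 1 - z, Z)` and `[Z, (z/w) w)`, together
`z + 1 - Z + (z/w) w - Z`.  kinds `a i`, `b i`: `D` each.  kind `u0`: `j ≤ z`: `min (z + 1) w`.  Others 0. -/
def S_DR0 : Prop := ∀ (p B w v m D : ℕ) (H : SimpleGraph (Fin w)), Par p B w v m D H →
  ∀ z, z < 2 * B * w → dg B w v H (.r 0 : Kd p) z = z + 1 + (2 * p + 2) * D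

/-- DR1 (hypothesis `S_HN`). degrees in class `r 1`.  kind `r 2`: `D` sparse plus dense forward: `z < Z`:
`[N - 1 - z, N)`, `z + 1` of them; `Z ≤ z`: `[(z/w + 1) w, N)`.  kind `r 0`: `D` sparse plus dense backward
(`th 0 = N + w - 1`): none for `z < Z`; `Z ≤ z`: `[N + w - 1 - z, Z)` (`z + 1 - Z - w`, truncated) and
`[Z, (z/w) w)`.  kinds `a i`, `b i`: `D` each.  kind `u1`: `z < Z`: the `j < w v` with `2w ≤ (z + j) % (w v)`:
`w v - 2 w`; `Z ≤ z`: `Z + w - 1 - z ≤ j`: `w v - (Z + w - 1 - z)` (truncated).  Others 0. -/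
def S_DR1 : Prop := ∀ (p B w v m D : ℕ) (H : SimpleGraph (Fin w)), Par p B w v m D H →
  ∀ z, z < 2 * B * w → dg B w v H (.r 1 : Kd p) z = z + 1 + (w * v - 2 * w) + (2 * p + 2) * D

/-- DR2 (hypothesis `S_HN`). degrees in class `r 2`.  kind `r 0`: `D` sparse plus dense forward
(`th 2 = N - 1`): `z < Z`: `z + 1`; `Z ≤ z`: `[(z/w + 1) w, N)`.  kind `r 1`: `D` sparse plus dense backward
(`th 1 = N - 1`): none for `z < Z`; `Z ≤ z`: `[N - 1 - z, Z)` and `[Z, (z/w) w)`.  kinds `a i`, `b i`: `D` each.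
kind `u2`: `z < Z`: the `l < 2wv` with `w ≤ (z + l) % (2wv)`: `2wv - w`; `Z ≤ z`: `2wv`.  Others 0. -/
def S_DR2 : Prop := ∀ (p B w v m D : ℕ) (H : SimpleGraph (Fin w)), Par p B w v m D H →
  ∀ z, z < 2 * B * w → dg B w v H (.r 2 : Kd p) z = z + 1 + (2 * w * v - w) + (2 * p + 2) * D

/-- DA (hypothesis `S_HN`). degrees in `a i`.  kind `b i`: `y ≤ x`: `x + 1`; kinds `b j`, `a j` (`j ≠ i`),
`r 0, r 1, r 2`: `D` each if `x < N`, else 0 (for `b j` block `x/w + 1 ≤ 2B` fits below `N + w` iff `x < N`);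
kind `u1`: `(2p+3) w` if `N ≤ x` (`(2p+3) w ≤ w v`), else 0.  Others 0. -/
def S_DA : Prop := ∀ (p B w v m D : ℕ) (H : SimpleGraph (Fin w)), Par p B w v m D H →
  ∀ (i : Fin p) (x : ℕ), x < 2 * B * w + w →
    dg B w v H (.a i) x = x + 1 + (if x < 2 * B * w then (2 * p + 1) * D else (2 * p + 3) * w)

/-- DB (hypothesis `S_HN`). degrees in `b i`.  kind `a i`: `y ≤ x < N + w`: `N + w - y`; kinds `a j`, `b j`
(`j ≠ i`), `r 0, r 1, r 2`: `D` each if `w ≤ y` (block `y/w - 1` for `a j`, `r`), else 0; kind `u2`: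
`(2p+3) w` if `y < w`, else 0.  Others 0. -/
def S_DB : Prop := ∀ (p B w v m D : ℕ) (H : SimpleGraph (Fin w)), Par p B w v m D H →
  ∀ (i : Fin p) (y : ℕ), y < 2 * B * w + w →
    dg B w v H (.b i) y = (2 * B * w + w - y) + (if w ≤ y then (2 * p + 1) * D else (2 * p + 3) * w)

/-- DU0. degrees of `u0`.  kind `r 0`: `j ≤ z < N`; kind `u1`: the last `(2p+3) w`.  Others 0. -/
def S_DU0 : Prop := ∀ (p B w v m D : ℕ) (H : SimpleGraph (Fin w)), Par p B w v m D H →
  ∀ j, j < w → dg B w v H (.u0 : Kd p) j = (2 * B * w - j) + (2 * p + 3) * w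

/-- DU1. degrees of `u1`.  kind `r 1`: the `z < Z` with `2w ≤ (z + j) % (w v)`: `Z - 4wm` (`Z = 2m (w v)`
is a multiple of the period, each period has `2w` exceptions), and the `z ∈ [Z, N)` with
`Z + w - 1 - j ≤ z`: `Z - (w - 1 - j)`.  kind `u2`: `2wv - (2w - j)`.  kind `l1`: `w v - 1 - j ≤ r < w v - 2w`:
`j + 1 - 2w`.  kind `u0`: `w` if `w v ≤ j + (2p+3) w`, kind `a i`: `w` (`N ≤ x < N + w`) in the same case,
for each of the `p` values of `i`.  Others 0. -/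
def S_DU1 : Prop := ∀ (p B w v m D : ℕ) (H : SimpleGraph (Fin w)), Par p B w v m D H →
  ∀ j, j < w * v →
    dg B w v H (.u1 : Kd p) j + 4 * w * m + (w - 1 - j) + (2 * w - j) =
      2 * B * w + (j + 1 - 2 * w) + 2 * w * v +
        (if w * v ≤ j + (2 * p + 3) * w then (p + 1) * w else 0)

/-- DU2. degrees of `u2`.  kind `r 2`: the `z < Z` with `w ≤ (z + l) % (2wv)`: `Z - w m` (`Z = m (2wv)`), and all
`z ∈ [Z, N)`.  kind `u1`: `w v - (2w - l)`.  kind `l2`: `l + 1 - 2w`.  kind `b i`: `w` (`y < w`) if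
`2wv ≤ l + (2p+3) w`, for each `i`.  Others 0. -/
def S_DU2 : Prop := ∀ (p B w v m D : ℕ) (H : SimpleGraph (Fin w)), Par p B w v m D H →
  ∀ l, l < 2 * w * v →
    dg B w v H (.u2 : Kd p) l + w * m + (2 * w - l) =
      2 * B * w + (l + 1 - 2 * w) + w * v +
        (if 2 * w * v ≤ l + (2 * p + 3) * w then p * w else 0)

/-- DL. degrees of `l1` (only neighbours: `u1`, the last `r + 1`), `l2` (`u2`, the last `r + 1`) -/
def S_DL : Prop := ∀ (p B w v m D : ℕ) (H : SimpleGraph (Fin w)), Par p B w v m D H →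
  (∀ r, r < w * v - 2 * w → dg B w v H (.l1 : Kd p) r = r + 1) ∧
  (∀ r, r < 2 * w * v - 2 * w → dg B w v H (.l2 : Kd p) r = r + 1)

/-- MULT (hypotheses `S_SUM, S_DR0, S_DR1, S_DR2, S_DA, S_DB, S_DU0, S_DU1, S_DU2, S_DL`). every degree
is at least one and is taken at most `2 p + 3` times.  Proof: the vertices fall into `2p + 3` streams with
pairwise different degrees inside a stream: `r 0, u0, u2`; `l1, r 1, u1`; `l2, r 2`; `a i`; `b i`.
Ranges: `r 0`: `≤ N + (2p+2) D ≤ N + (p+1) w`; `u0`: in `[N - w + 1 + t, N + t]`, `t = (2p+3) w`, decreasing in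
`j`; `u2`: strictly increasing in `l`, at least `N + w v - w m - 2w > N + t`.  `l1`: `[1, w v - 2w]`; `r 1`: from
`w v - 2w + 1` to `N + w v - 2w + (2p+2) D`; `u1`: strictly increasing, at least
`N + 2wv - 4wm - 3w + 1 > N + w v - 2w + (p+1) w`.  `l2`: `[1, 2wv - 2w]`; `r 2`: from `2wv - w + 1` on.
`a i`: strictly increasing (`(2p+1) D ≤ (2p+3) w`), `b i`: strictly decreasing. -/
def S_MULT : Prop := ∀ (p B w v m D : ℕ) (H : SimpleGraph (Fin w)), Par p B w v m D H →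
  (∀ x : V p B w v, 1 ≤ ((G p B w v H).neighborSet x).ncard) ∧
  ∀ d : ℕ, {x : V p B w v | ((G p B w v H).neighborSet x).ncard = d}.ncard ≤ 2 * p + 3

/-- TRI. the graph is triangle-free.  Proof: case analysis on the kinds.  Possible pairs of kinds:
`r-r` (dense between `r i` and `r (i+1)`, the block of `r i` strictly smaller; sparse in the same block),
`r-a`, `r-b` sparse, `a-a`, `b-b` sparse between different copies, `a i - b i` dense (`y ≤ x`), `a i - b j`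
sparse (block numbers: `x/w` on `r`, `a`, block `y/w - 1` on `b`), `u0-r 0`, `u1-r 1`, `u2-r 2`, `u0-u1`, `u1-u2`,
`l1-u1`, `l2-u2`, `a-u1` (top `a`: `x ≥ N`, no sparse edges), `b-u2` (top `b`: `y < w`, no sparse edges).
Sparse edges join vertices of the same block with adjacent labels, so three sparse edges give a triangle of
labels; two sparse edges and a dense one: both ends of the dense one in the same block, impossible (`r-r`:
different blocks; `a i - b i`: `y ≤ x` but `y/w = x/w + 1`); one sparse edge and two dense ones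
`x-y`, `x-z`, `y-z` sparse: dense neighbours of `y`, `z` of the same block and of different classes are
disjoint. Three dense edges: `r 0, r 1, r 2` give increasing blocks around a cycle; the others by kinds. -/
def S_TRI : Prop := ∀ (p B w v : ℕ) (H : SimpleGraph (Fin w)), 0 < w → H.CliqueFree 3 →
  (G p B w v H).CliqueFree 3

/-- IND. the independence number.  Proof (as `Run7.h482.RD.t_IND` for even `k`): for a block `q < 2B` the
classes are `r 0, r 1, r 2` (positions `z/w = q`), `a i` (`x/w = q`), `b i` (`y/w = q + 1`); the label set of a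
class in block `q` is `{c : (q w + c or (q+1) w + c) ∈ X}`; it is big if of size `≥ ε w`.  Two big sets in a
block belong to the same copy, i.e. are `a i`, `b i` for one `i` (otherwise a sparse edge); for fixed `i`
there are at most two blocks `q` with both `a i` and `b i` nonempty (`q1 + 2 ≤ q2`: the `a i` element of block
`q2` is `≥ q2 w`, the `b i` element of block `q1` is `< (q1 + 2) w`).  So the blocks contain at most
`2B (w + (2p+3) ε w) + 2 p w` elements of `X`; unblocked vertices: `2 p w` (top `a`, top `b`), `w` (`u0`),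
`w v`, `2wv` (`u1`, `u2`), `≤ w v`, `≤ 2wv` (`l1`, `l2`). -/
def S_IND : Prop := ∀ (p B w v : ℕ) (H : SimpleGraph (Fin w)) (ε : ℝ), 0 < w → 0 < ε →
  (∀ X Y : Finset (Fin w), ε * w ≤ (X.card : ℝ) → ε * w ≤ (Y.card : ℝ) →
    ∃ x ∈ X, ∃ y ∈ Y, H.Adj x y) →
  ∀ X : Finset (V p B w v), (∀ x ∈ X, ∀ y ∈ X, ¬ (G p B w v H).Adj x y) →
    (X.card : ℝ) ≤ 2 * B * w * (1 + (2 * p + 3) * ε) + 4 * p * w + w + 6 * w * v

/-- label graphs (proved: `Run7.h77.RD.t_LG Run7.h77.RD.t_CUBE`) -/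
def S_LG : Prop :=
  ∀ ε : ℝ, 0 < ε → ∃ (w D : ℕ) (H : SimpleGraph (Fin w)), 0 < w ∧ H.CliqueFree 3 ∧
    (∀ c, (H.neighborSet c).ncard = D) ∧ 2 * D ≤ w ∧
    ∀ X Y : Finset (Fin w), ε * w ≤ (X.card : ℝ) → ε * w ≤ (Y.card : ℝ) →
      ∃ x ∈ X, ∃ y ∈ Y, H.Adj x y

/-- UP (hypotheses `S_LG, S_TRI, S_MULT, S_IND`; compare `Run7.h77.RD.t_UP`). Proof: `S_LG` for `ε/2`;
`v = 4m + 2p + 4`, `B = 2vm`, `m` large: with `k = 2p + 3` the number of vertices is at least `k N`,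
`N = 2Bw = 4vmw`, and `N (1 + k ε/2) + 4pw + w + 6wv ≤ N + k ε N` as soon as
`4p + 1 + 6v ≤ 2 k ε v m`. -/
def S_UP : Prop :=
  ∀ (p : ℕ) (ε : ℝ) (N : ℕ), 0 < ε → ∃ (n : ℕ) (K : SimpleGraph (Fin n)), N ≤ n ∧
    K.CliqueFree 3 ∧ (∀ v, 1 ≤ (K.neighborSet v).ncard) ∧
    (∀ d : ℕ, {v : Fin n | (K.neighborSet v).ncard = d}.ncard ≤ 2 * p + 3) ∧
    (K.indepNum : ℝ) ≤ (1 / (2 * p + 3) + ε) * n

end Run7.h77.RO
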