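import Pool.Agent.Run7.h77.RD.FIN
import Pool.Agent.Run7.h77.RO.Defs

namespace Run7.h77.RO

open Filter Run7.h77.RD

/-- upper bound for one `k` -/
def UPk (k : ℕ) : Prop :=
  ∀ (ε : ℝ) (N : ℕ), 0 < ε → ∃ (n : ℕ) (K : SimpleGraph (Fin n)), N ≤ n ∧
    K.CliqueFree 3 ∧ (∀ v, 1 ≤ (K.neighborSet v).ncard) ∧
    (∀ d : ℕ, {v : Fin n | (K.neighborSet v).ncard = d}.ncard ≤ k) ∧
    (K.indepNum : ℝ) ≤ (1 / k + ε) * n

theorem all_UPk (h0 : Run7.h77.RD.S_UP) (h1 : S_UP) : ∀ k, 2 ≤ k → UPk k := by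
  intro k hk ε N hε
  rcases Nat.even_or_odd k with ⟨p, hp⟩ | ⟨p, hp⟩
  · obtain ⟨n, K, a1, a2, a3, a4, a5⟩ := h0 p ε N (by omega) hε
    have hkp : k = 2 * p := by omega
    refine ⟨n, K, a1, a2, a3, ?_, ?_⟩
    · intro d; rw [hkp]; exact a4 d
    · rw [hkp]; push_cast; exact a5
  · obtain ⟨q, rfl⟩ : ∃ q, p = q + 1 := ⟨p - 1, by omega⟩
    obtain ⟨n, K, a1, a2, a3, a4, a5⟩ := h1 q ε N hε
    have hkp : k = 2 * q + 3 := by omega
    refine ⟨n, K, a1, a2, a3, ?_, ?_⟩
    · intro d; rw [hkp]; exact a4 d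
    · rw [hkp]; push_cast; exact a5

theorem FINk (hlow : S_LOW) (k : ℕ) (hk : 2 ≤ k) (hup : UPk k) :
    Filter.liminf (fun n : ℕ => ((gk k n : ℕ∞) : ENNReal) / (n : ENNReal)) Filter.atTop
      = (k : ENNReal)⁻¹ := by
  have hk0 : (k : ENNReal) ≠ 0 := by
    have : k ≠ 0 := by omega
    exact_mod_cast this
  have hkt : (k : ENNReal) ≠ ⊤ := ENNReal.natCast_ne_top k
  have hkr : (0 : ℝ) < k := by
    have : 0 < k := by omega
    exact_mod_cast this
  apply le_antisymm
  · -- upper bound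
    refine ENNReal.le_of_forall_pos_le_add ?_
    intro ε hε _
    refine Filter.liminf_le_of_frequently_le ?_ (by isBoundedDefault)
    rw [Filter.frequently_atTop]
    intro N
    obtain ⟨n, K, hn, hcf, hdeg, hmul, hind⟩ := hup (ε : ℝ) (N + 1) (by exact_mod_cast hε)
    refine ⟨n, by omega, ?_⟩
    have hn0 : n ≠ 0 := by omega
    have hf : f K ≤ k := f_le K k hmul
    have h1 : gk k n ≤ (K.indepNum : ℕ∞) := gk_le K hcf hdeg hf
    have h2 : ((gk k n : ℕ∞) : ENNReal) ≤ (K.indepNum : ENNReal) := by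
      have := ENat.toENNReal_le.mpr h1
      simpa using this
    have h3 : ENNReal.ofReal (K.indepNum : ℝ) ≤ ENNReal.ofReal ((1 / (k : ℝ) + ε) * n) :=
      ENNReal.ofReal_le_ofReal hind
    have h4 : ENNReal.ofReal (K.indepNum : ℝ) = (K.indepNum : ENNReal) := ENNReal.ofReal_natCast _
    have h5 : ENNReal.ofReal ((1 / (k : ℝ) + ε) * n) = ((k : ENNReal)⁻¹ + ε) * n := by
      rw [ENNReal.ofReal_mul (by positivity), ENNReal.ofReal_natCast,
        ENNReal.ofReal_add (by positivity) (by positivity)]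
      congr 2
      · rw [one_div, ENNReal.ofReal_inv_of_pos hkr, ENNReal.ofReal_natCast]
      · exact ENNReal.ofReal_coe_nnreal
    have h6 : ((gk k n : ℕ∞) : ENNReal) ≤ ((k : ENNReal)⁻¹ + ε) * n := by
      calc ((gk k n : ℕ∞) : ENNReal) ≤ (K.indepNum : ENNReal) := h2
        _ = ENNReal.ofReal (K.indepNum : ℝ) := h4.symm
        _ ≤ _ := h3
        _ = _ := h5
    exact ENNReal.div_le_of_le_mul h6
  · -- lower bound
    refine Filter.le_liminf_of_le (by isBoundedDefault) ?_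
    filter_upwards [Filter.eventually_ge_atTop 1] with n hn
    have hn0 : (n : ENNReal) ≠ 0 := by
      have : n ≠ 0 := by omega
      exact_mod_cast this
    have hnt : (n : ENNReal) ≠ ⊤ := ENNReal.natCast_ne_top n
    rw [ENNReal.le_div_iff_mul_le (Or.inl hn0) (Or.inl hnt)]
    by_cases htop : gk k n = ⊤
    · rw [htop]; simp
    · have hex : ∃ (K : SimpleGraph (Fin n)), K.CliqueFree 3 ∧
          (∀ v, 1 ≤ (K.neighborSet v).ncard) ∧ f K ≤ k ∧ (K.indepNum : ℕ∞) ≤ gk k n := by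
        by_contra hno
        push Not at hno
        apply htop
        obtain ⟨m, hm⟩ := ENat.ne_top_iff_exists.mp htop
        exfalso
        have hlt : gk k n < ((m + 1 : ℕ) : ℕ∞) := by
          rw [← hm]; exact_mod_cast Nat.lt_succ_self m
        have hle : ((m + 1 : ℕ) : ℕ∞) ≤ gk k n := by
          unfold gk
          refine le_iInf₂ ?_
          intro K hK
          have := hno K hK.1 hK.2.1 hK.2.2
          rw [← hm] at this
          have h7 : m < K.indepNum := by exact_mod_cast this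
          exact_mod_cast h7
        exact absurd hlt (not_lt.mpr hle)
      obtain ⟨K, h1, h2, h3, h4⟩ := hex
      have h5 : n ≤ k * K.indepNum := hlow n k K h1 h2 (fun d => (le_f K d).trans h3)
      have h6 : (n : ENNReal) ≤ (k : ENNReal) * (K.indepNum : ENNReal) := by exact_mod_cast h5
      have h7 : (K.indepNum : ENNReal) ≤ ((gk k n : ℕ∞) : ENNReal) := by
        have := ENat.toENNReal_le.mpr h4
        simpa using this
      calc (k : ENNReal)⁻¹ * n ≤ (k : ENNReal)⁻¹ * ((k : ENNReal) * (K.indepNum : ENNReal)) := by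
            gcongr
        _ = (K.indepNum : ENNReal) := by
            rw [← mul_assoc, ENNReal.inv_mul_cancel hk0 hkt, one_mul]
        _ ≤ _ := h7

/-- the final statement from the two upper bounds and the lower bound -/
theorem t_FIN : Run7.h77.RD.S_UP → S_UP → S_LOW → ∀ k : ℕ, 2 ≤ k →
    Filter.liminf (fun n : ℕ => ((gk k n : ℕ∞) : ENNReal) / (n : ENNReal)) Filter.atTop
      = (k : ENNReal)⁻¹ :=
  fun h0 h1 hl k hk => FINk hl k hk (all_UPk h0 h1 k hk)

end Run7.h77.RO
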