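import Pool.Agent.Run7.h77.RO.Defs

namespace Run7.h77.RO

open Finset Classical in
theorem t_HN : S_HN := by
  intro w D H hreg c q M hc hq
  have hw : 0 < w := by omega
  have key : ((Finset.range M).filter (fun y => q = y / w ∧ @Hn w H c (y % w))).card =
      ((H.neighborSet ⟨c, hc⟩).toFinset).card := by
    refine Finset.card_nbij' (fun y => (⟨y % w, Nat.mod_lt _ hw⟩ : Fin w))
      (fun a => q * w + (a : ℕ)) ?_ ?_ ?_ ?_
    · intro y hy
      simp only [coe_filter, Finset.mem_range, Set.mem_setOf_eq] at hy
      obtain ⟨_, _, hx, hy2, hadj⟩ := hy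
      simp only [Set.coe_toFinset, SimpleGraph.mem_neighborSet]
      exact hadj
    · intro a ha
      simp only [Set.coe_toFinset, SimpleGraph.mem_neighborSet] at ha
      have ha2 := a.2
      have h1 : (q * w + (a : ℕ)) / w = q := by
        rw [mul_comm, Nat.mul_add_div hw, Nat.div_eq_of_lt ha2, add_zero]
      have h2 : (q * w + (a : ℕ)) % w = a := by
        rw [mul_comm, Nat.mul_add_mod, Nat.mod_eq_of_lt ha2]
      simp only [coe_filter, Finset.mem_range, Set.mem_setOf_eq]
      refine ⟨?_, h1.symm, ?_⟩
      · have : (q + 1) * w = q * w + w := by ring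
        omega
      · rw [h2]; exact ⟨hc, ha2, ha⟩
    · intro y hy
      simp only [coe_filter, Finset.mem_range, Set.mem_setOf_eq] at hy
      obtain ⟨_, hq', _⟩ := hy
      show q * w + y % w = y
      rw [hq', mul_comm]
      exact Nat.div_add_mod y w
    · intro a _
      apply Fin.ext
      show (q * w + (a : ℕ)) % w = a
      rw [mul_comm, Nat.mul_add_mod, Nat.mod_eq_of_lt a.2]
  rw [key, ← hreg ⟨c, hc⟩, Set.ncard_eq_toFinset_card']

end Run7.h77.RO
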