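import Pool.Agent.Run7.h77.RO.Defs

namespace Run7.h77.RO

open Classical in
theorem cnt_eq {p : ℕ} (B w v : ℕ) (H : SimpleGraph (Fin w)) (k : Kd p) (x : ℕ) (k' : Kd p) (M : ℕ)
    (hM : sz B w v k' = M) :
    cnt B w v H k x k' = ∑ y : Fin M, if A2 B w v H k x k' (y : ℕ) then 1 else 0 := by
  subst hM
  unfold cnt
  rw [Finset.card_filter, Finset.sum_range]

open Classical in
theorem t_SUM : S_SUM := by
  intro p B w v H x
  have h1 : ((G p B w v H).neighborSet x).ncard =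
      ∑ y : V p B w v, if A2 B w v H (kd x) (ps x) (kd y) (ps y) then 1 else 0 := by
    rw [← Finset.card_filter, ← Set.ncard_coe_finset]
    congr 1
    ext y
    simp [G]
  rw [h1]
  generalize kd x = k0
  generalize ps x = x0
  unfold dg
  rw [Fintype.sum_sum_type, Fintype.sum_sum_type, Fintype.sum_sum_type, Fintype.sum_sum_type,
    Fintype.sum_sum_type, Fintype.sum_sum_type, Fintype.sum_sum_type, Fintype.sum_prod_type,
    Fintype.sum_prod_type, Fintype.sum_prod_type, Fin.sum_univ_three]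
  have hr : ∀ i, cnt B w v H k0 x0 (.r i) = ∑ y : Fin (2 * B * w),
      if A2 B w v H k0 x0 (.r i) (y : ℕ) then 1 else 0 := fun i => cnt_eq B w v H k0 x0 _ _ rfl
  have ha : ∀ i, cnt B w v H k0 x0 (.a i) = ∑ y : Fin (2 * B * w + w),
      if A2 B w v H k0 x0 (.a i) (y : ℕ) then 1 else 0 := fun i => cnt_eq B w v H k0 x0 _ _ rfl
  have hb : ∀ i, cnt B w v H k0 x0 (.b i) = ∑ y : Fin (2 * B * w + w),
      if A2 B w v H k0 x0 (.b i) (y : ℕ) then 1 else 0 := fun i => cnt_eq B w v H k0 x0 _ _ rfl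
  have h2 : cnt B w v H k0 x0 .u0 = ∑ y : Fin w,
      if A2 B w v H k0 x0 .u0 (y : ℕ) then 1 else 0 := cnt_eq B w v H k0 x0 _ _ rfl
  have h3 : cnt B w v H k0 x0 .u1 = ∑ y : Fin (w * v),
      if A2 B w v H k0 x0 .u1 (y : ℕ) then 1 else 0 := cnt_eq B w v H k0 x0 _ _ rfl
  have h4 : cnt B w v H k0 x0 .u2 = ∑ y : Fin (2 * w * v),
      if A2 B w v H k0 x0 .u2 (y : ℕ) then 1 else 0 := cnt_eq B w v H k0 x0 _ _ rfl
  have h5 : cnt B w v H k0 x0 .l1 = ∑ y : Fin (w * v - 2 * w),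
      if A2 B w v H k0 x0 .l1 (y : ℕ) then 1 else 0 := cnt_eq B w v H k0 x0 _ _ rfl
  have h6 : cnt B w v H k0 x0 .l2 = ∑ y : Fin (2 * w * v - 2 * w),
      if A2 B w v H k0 x0 .l2 (y : ℕ) then 1 else 0 := cnt_eq B w v H k0 x0 _ _ rfl
  simp only [hr, ha, hb, h2, h3, h4, h5, h6]
  have key : ∀ r0 r1 r2 a b c d e f g : ℕ,
      (r0 + r1 + r2) + (a + (b + (c + (d + (e + (f + g)))))) =
      (r0 + r1 + r2) + a + b + c + d + e + f + g := by
    intros; omega
  exact key _ _ _ _ _ _ _ _ _ _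

end Run7.h77.RO
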